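import Mathlib

/-!
# Algebraic independence in tensor products: auxiliary results
-/

set_option autoImplicit false

open TensorProduct

namespace Pool.Agent.W410.WT

universe u

section li

variable {k : Type*} [Field k] {n : ℕ} {V : Fin n → Type*} [∀ i, AddCommGroup (V i)]
  [∀ i, Module k (V i)]

/-- Tensor products of linearly independent families are linearly independent. -/
theorem li_tprod {J : Fin n → Type*} (b : ∀ i, J i → V i)
    (hb : ∀ i, LinearIndependent k (b i)) :
    LinearIndependent k (fun j : (∀ i, J i) => PiTensorProduct.tprod k fun i => b i (j i)) := by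
  classical
  have h1 := (_root_.Basis.piTensorProduct fun i =>
    Module.Basis.extend (hb i).linearIndepOn_id).linearIndependent
  have h2 : Function.Injective (fun (j : ∀ i, J i) (i : Fin n) =>
      (⟨b i (j i), (hb i).linearIndepOn_id.subset_extend _ (Set.mem_range_self _)⟩ :
        (hb i).linearIndepOn_id.extend (Set.subset_univ _))) := by
    intro j j' h
    funext i
    have := congrFun h i
    exact (hb i).injective (congrArg Subtype.val this)
  have h3 := h1.comp _ h2
  have h4 : (fun j : (∀ i, J i) => PiTensorProduct.tprod k fun i => b i (j i)) =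
      (_root_.Basis.piTensorProduct fun i =>
        Module.Basis.extend (hb i).linearIndepOn_id) ∘ (fun (j : ∀ i, J i) (i : Fin n) =>
      (⟨b i (j i), (hb i).linearIndepOn_id.subset_extend _ (Set.mem_range_self _)⟩ :
        (hb i).linearIndepOn_id.extend (Set.subset_univ _))) := by
    funext j
    simp [_root_.Basis.piTensorProduct_apply]
  rw [h4]
  exact h3

end li

section alg

variable {k : Type*} [Field k] {n : ℕ} {A : Fin n → Type*} [∀ i, CommRing (A i)]
  [∀ i, Algebra k (A i)]

theorem tprod_eq_prod (a : ∀ i, A i) :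
    PiTensorProduct.tprod k a =
      ∏ i, PiTensorProduct.singleAlgHom (R := k) (A := A) i (a i) := by
  classical
  have h1 : a = ∏ i, Pi.mulSingle i (a i) := (Finset.univ_prod_mulSingle a).symm
  conv_lhs => rw [h1]
  rw [PiTensorProduct.tprod_prod]
  rfl

end alg

section main

variable {k : Type*} [Field k] {n : ℕ} {A K : Fin n → Type*}
  [∀ i, CommRing (A i)] [∀ i, IsDomain (A i)] [∀ i, Algebra k (A i)] [∀ i, Field (K i)]
  [∀ i, Algebra k (K i)] [∀ i, Algebra (A i) (K i)] [∀ i, IsScalarTower k (A i) (K i)]
  [∀ i, IsFractionRing (A i) (K i)] {E : Type*} [Field E] [Algebra k E]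

/-- The map of the tensor product of the fraction fields. -/
noncomputable def Phi (e : ∀ i, K i →ₐ[k] E) : (⨂[k] i, K i) →ₐ[k] E :=
  PiTensorProduct.liftAlgHom
    ((MultilinearMap.mkPiAlgebra k (Fin n) E).compLinearMap fun i => (e i).toLinearMap)
    (by simp)
    (by intro x y; simp [Finset.prod_mul_distrib])

omit [∀ i, IsDomain (A i)] [∀ i, Algebra (A i) (K i)] [∀ i, IsScalarTower k (A i) (K i)]
  [∀ i, IsFractionRing (A i) (K i)] [∀ i, CommRing (A i)] [∀ i, Algebra k (A i)] in
theorem Phi_tprod (e : ∀ i, K i →ₐ[k] E) (c : ∀ i, K i) :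
    Phi e (PiTensorProduct.tprod k c) = ∏ i, e i (c i) := by
  change PiTensorProduct.lift _ (PiTensorProduct.tprod k c) = _
  rw [PiTensorProduct.lift.tprod]
  simp

/-- The map of tensor products induced by the inclusions. -/
noncomputable def Psi (k : Type*) [Field k] {n : ℕ} (A K : Fin n → Type*)
    [∀ i, CommRing (A i)] [∀ i, Algebra k (A i)] [∀ i, Field (K i)]
    [∀ i, Algebra k (K i)] [∀ i, Algebra (A i) (K i)] [∀ i, IsScalarTower k (A i) (K i)] :
    (⨂[k] i, A i) →ₐ[k] (⨂[k] i, K i) :=
  PiTensorProduct.liftAlgHom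
    ((PiTensorProduct.tprod k).compLinearMap fun i =>
      (IsScalarTower.toAlgHom k (A i) (K i)).toLinearMap)
    (by
      simp only [MultilinearMap.compLinearMap_apply]
      rw [PiTensorProduct.one_def]
      congr 1
      funext i
      simp)
    (by
      intro x y
      simp only [MultilinearMap.compLinearMap_apply, PiTensorProduct.tprod_mul_tprod]
      congr 1
      funext i
      simp)

omit [∀ i, IsDomain (A i)] [∀ i, IsFractionRing (A i) (K i)] in
theorem Psi_tprod (a : ∀ i, A i) :
    Psi k A K (PiTensorProduct.tprod k a) =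
      PiTensorProduct.tprod k fun i => algebraMap (A i) (K i) (a i) := by
  change PiTensorProduct.lift _ (PiTensorProduct.tprod k a) = _
  rw [PiTensorProduct.lift.tprod]
  simp

theorem clear (z : ⨂[k] i, K i) : ∃ d : ∀ i, A i, (∀ i, algebraMap (A i) (K i) (d i) ≠ 0) ∧
    ∃ w : ⨂[k] i, A i,
      (PiTensorProduct.tprod k fun i => algebraMap (A i) (K i) (d i)) * z = Psi k A K w := by
  induction z using PiTensorProduct.induction_on with
  | smul_tprod r f =>
    have h : ∀ i, ∃ a d : A i, algebraMap (A i) (K i) d ≠ 0 ∧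
        algebraMap (A i) (K i) d * f i = algebraMap (A i) (K i) a := by
      intro i
      obtain ⟨a, d, hd, h⟩ := IsFractionRing.div_surjective (A := A i) (f i)
      have hd' : algebraMap (A i) (K i) d ≠ 0 :=
        IsFractionRing.to_map_ne_zero_of_mem_nonZeroDivisors hd
      refine ⟨a, d, hd', ?_⟩
      rw [← h]
      field_simp
    choose a d hd h using h
    refine ⟨d, hd, r • PiTensorProduct.tprod k a, ?_⟩
    rw [mul_smul_comm, PiTensorProduct.tprod_mul_tprod, map_smul, Psi_tprod]
    congr 2
    funext i
    exact h i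
  | add x y hx hy =>
    obtain ⟨d, hd, w, hw⟩ := hx
    obtain ⟨d', hd', w', hw'⟩ := hy
    refine ⟨fun i => d i * d' i, fun i => by rw [map_mul]; exact mul_ne_zero (hd i) (hd' i),
      PiTensorProduct.tprod k d' * w + PiTensorProduct.tprod k d * w', ?_⟩
    rw [map_add, map_mul, map_mul, ← hw, ← hw', Psi_tprod, Psi_tprod]
    have h : (PiTensorProduct.tprod k fun i => algebraMap (A i) (K i) (d i * d' i)) =
        (PiTensorProduct.tprod k fun i => algebraMap (A i) (K i) (d i)) *
          PiTensorProduct.tprod k fun i => algebraMap (A i) (K i) (d' i) := by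
      rw [PiTensorProduct.tprod_mul_tprod]
      congr 1
      funext i
      simp
    rw [h]
    ring

theorem Phi_inj (g : (⨂[k] i, A i) →ₐ[k] E) (e : ∀ i, K i →ₐ[k] E) (hg : Function.Injective g)
    (he : ∀ i a, e i (algebraMap (A i) (K i) a) =
      g (PiTensorProduct.singleAlgHom (R := k) (A := A) i a)) :
    Function.Injective (Phi e) := by
  have h1 : ∀ w, Phi e (Psi k A K w) = g w := by
    intro w
    have h2 : (Phi e).toLinearMap ∘ₗ (Psi k A K).toLinearMap = g.toLinearMap := by
      apply PiTensorProduct.ext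
      ext a
      simp only [LinearMap.compMultilinearMap_apply, LinearMap.comp_apply,
        AlgHom.toLinearMap_apply]
      rw [Psi_tprod, Phi_tprod, tprod_eq_prod, map_prod]
      exact Finset.prod_congr rfl fun i _ => he i (a i)
    exact LinearMap.congr_fun h2 w
  rw [injective_iff_map_eq_zero]
  intro z hz
  obtain ⟨d, hd, w, hw⟩ := clear (k := k) (A := A) z
  have h3 : g w = 0 := by
    rw [← h1, ← hw, map_mul, hz, mul_zero]
  have h4 : w = 0 := hg (by rw [h3, map_zero])
  rw [h4, map_zero] at hw
  have h5 : (PiTensorProduct.tprod k fun i => (algebraMap (A i) (K i) (d i))⁻¹) *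
      (PiTensorProduct.tprod k fun i => algebraMap (A i) (K i) (d i)) = 1 := by
    rw [PiTensorProduct.tprod_mul_tprod, PiTensorProduct.one_def]
    congr 1
    funext i
    exact inv_mul_cancel₀ (hd i)
  calc z = 1 * z := (one_mul z).symm
    _ = 0 := by rw [← h5, mul_assoc, hw, mul_zero]

theorem ind (m : ℕ) (g : (⨂[k] i, A i) →ₐ[k] E) (e : ∀ i, K i →ₐ[k] E)
    (hg : Function.Injective g)
    (he : ∀ i a, e i (algebraMap (A i) (K i) a) =
      g (PiTensorProduct.singleAlgHom (R := k) (A := A) i a))
    (x : ∀ i, Fin m → K i) (hx : ∀ i, AlgebraicIndependent k (x i)) :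
    AlgebraicIndependent k (fun q : Fin n × Fin m => e q.1 (x q.1 q.2)) := by
  classical
  -- the monomials
  have hb : ∀ i, LinearIndependent k (fun β : Fin m →₀ ℕ => ∏ l, x i l ^ β l) := by
    intro i
    have h1 := (MvPolynomial.basisMonomials (Fin m) k).linearIndependent.map'
      (MvPolynomial.aeval (x i)).toLinearMap (LinearMap.ker_eq_bot.2 (hx i))
    have h2 : (fun β : Fin m →₀ ℕ => ∏ l, x i l ^ β l) =
        (MvPolynomial.aeval (x i)).toLinearMap ∘ (MvPolynomial.basisMonomials (Fin m) k) := by
      funext β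
      simp only [Function.comp, MvPolynomial.coe_basisMonomials, AlgHom.toLinearMap_apply,
        MvPolynomial.aeval_monomial, map_one, one_mul]
      rw [Finsupp.prod_fintype _ _ (by simp)]
    rw [h2]
    exact h1
  have h2 := li_tprod (fun i (β : Fin m →₀ ℕ) => ∏ l, x i l ^ β l) hb
  have hc : Function.Injective (fun (α : Fin n × Fin m →₀ ℕ) (i : Fin n) =>
      Finsupp.equivFunOnFinite.symm fun l => α (i, l)) := by
    intro α α' h
    ext ⟨i, l⟩
    have h3 := congrFun h i
    have h4 := DFunLike.congr_fun h3 l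
    simpa using h4
  have h3 := (h2.comp _ hc).map' (Phi e).toLinearMap
    (LinearMap.ker_eq_bot.2 (Phi_inj g e hg he))
  have h4 : LinearIndependent k
      (fun α : Fin n × Fin m →₀ ℕ => ∏ q : Fin n × Fin m, (e q.1 (x q.1 q.2)) ^ α q) := by
    have h5 : (fun α : Fin n × Fin m →₀ ℕ => ∏ q : Fin n × Fin m, (e q.1 (x q.1 q.2)) ^ α q) =
        (Phi e).toLinearMap ∘ (fun j : (∀ _ : Fin n, Fin m →₀ ℕ) =>
          PiTensorProduct.tprod k fun i => ∏ l, x i l ^ (j i) l) ∘
          (fun (α : Fin n × Fin m →₀ ℕ) (i : Fin n) =>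
            Finsupp.equivFunOnFinite.symm fun l => α (i, l)) := by
      funext α
      simp only [Function.comp, AlgHom.toLinearMap_apply, Phi_tprod]
      rw [Fintype.prod_prod_type]
      refine Finset.prod_congr rfl fun i _ => ?_
      rw [map_prod]
      refine Finset.prod_congr rfl fun l _ => ?_
      rw [map_pow]
      simp
    rw [h5]
    exact h3
  unfold AlgebraicIndependent
  rw [injective_iff_map_eq_zero]
  intro p hp
  rw [MvPolynomial.aeval_def, MvPolynomial.eval₂_eq'] at hp
  have h5 := linearIndependent_iff'.1 h4 p.support (fun α => p.coeff α) (by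
    simp only [Algebra.smul_def]
    exact hp)
  ext α
  rw [MvPolynomial.coeff_zero]
  by_cases hα : α ∈ p.support
  · exact h5 α hα
  · exact MvPolynomial.notMem_support_iff.1 hα

end main

end Pool.Agent.W410.WT
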