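import Pool.Agent.W558.WT.Stms
import Pool.Agent.W410.WT.Ind0

/-!
# WT-IND
-/

set_option autoImplicit false

universe u

namespace Pool.Agent.W410.WT

theorem main : Pool.Agent.W558.WT_ind.{u} := by
  intro k _ m n A K _ _ _ _ _ _ _ _ E _ _ g e hg he x hx
  exact ind m g e hg he x hx

end Pool.Agent.W410.WT
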